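/-
Certificate: a chain of rewriting consequences of the relations t^5 = 1 and t^3 w^3 = w^2 t, ending in w^2 = t.
Generated by a Knuth-Bendix completion; it is checked in Check.lean.
-/
import Mathlib.Data.List.Basic

set_option autoImplicit false

namespace Pool.Agent.Helper19.Wh

/-- A certificate node: a start word and two rewriting paths (rule index, position); the flag says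
whether the two resulting words are to be swapped. Letters: 0 = t, 1 = inverse of t, 2 = w, 3 = inverse of w. -/
structure Node where
  start : List Nat
  p1 : List (Nat × Nat)
  p2 : List (Nat × Nat)
  sw : Bool

/-- the axioms, as pairs of words -/
def axioms : List (List Nat × List Nat) := [([0,1],[]),
  ([1,0],[]),
  ([2,3],[]),
  ([3,2],[]),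
  ([0,0,0,0,0],[]),
  ([0,0,0,2,2,2],[2,2,0])]

def cert0 : List Node := [
  ⟨[0,1],[],[(0,0)],false⟩,
  ⟨[1,0],[],[(1,0)],false⟩,
  ⟨[2,3],[],[(2,0)],false⟩,
  ⟨[3,2],[],[(3,0)],false⟩,
  ⟨[0,0,0,0,0],[],[(4,0)],false⟩,
  ⟨[0,0,0,0,0,1],[(10,0)],[(6,4)],true⟩,
  ⟨[0,0,0,0,1],[(11,0)],[(6,3)],true⟩,
  ⟨[0,0,0,1],[(12,0)],[(6,2)],false⟩,
  ⟨[0,0,0,2,2,2],[(12,0)],[(5,0)],false⟩,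
  ⟨[0,1,1,2,2,2],[(6,0)],[(14,1)],false⟩,
  ⟨[1,1,2,2,2,3],[(14,0)],[(8,4)],true⟩,
  ⟨[0,1,2,2,2],[(6,0)],[(15,1)],true⟩,
  ⟨[1,2,2,2,3],[(15,0)],[(8,3)],false⟩,
  ⟨[1,1,2,2,3],[(16,0)],[(8,3)],false⟩,
  ⟨[0,0,2,2,0,1],[(17,0)],[(6,4)],true⟩,
  ⟨[3,2,2,0,3,3],[(9,0)],[(19,1)],true⟩,
  ⟨[0,0,2,2,3],[(20,0)],[(8,3)],false⟩,
  ⟨[3,1,1,2,3],[(21,0)],[(8,3)],false⟩,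
  ⟨[3,2,2,2,1,3],[(9,0)],[(22,1)],true⟩,
  ⟨[3,2,0,3,3,3],[(9,0)],[(23,1)],false⟩,
  ⟨[3,0,0,2,3],[(24,0)],[(8,3)],false⟩,
  ⟨[1,0,3,3,3],[(7,0)],[(25,1)],true⟩,
  ⟨[3,2,2,1,3,3],[(9,0)],[(26,1)],true⟩,
  ⟨[1,3,3,1,1,0],[(27,0)],[(7,4)],true⟩,
  ⟨[1,1,1,2,2,2],[(13,0),(20,0)],[(14,1)],false⟩,
  ⟨[1,1,1,2,2],[(13,0),(20,0)],[(16,1)],true⟩,
  ⟨[0,0,0,2,2,0],[(12,0),(16,0)],[(17,1)],false⟩,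
  ⟨[0,0,0,2,2],[(12,0),(16,0)],[(20,1)],true⟩,
  ⟨[1,3,3,1,1,1],[(27,0)],[(13,3),(28,1)],true⟩,
  ⟨[3,2,2,2,1,2],[(9,0)],[(30,1)],true⟩,
  ⟨[3,2,2,0,3,0],[(9,0)],[(32,1)],true⟩,
  ⟨[1,2,1,3,3,2],[(34,0)],[(9,4)],false⟩,
  ⟨[3,1,2,2,0,1],[(35,0)],[(6,4)],false⟩,
  ⟨[3,0,2,2,2,3],[(36,0)],[(8,4)],false⟩,
  ⟨[2,3,3,3,1,2],[(8,0)],[(37,1)],true⟩,
  ⟨[3,2,2,1,2,1],[(9,0)],[(38,1)],true⟩,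
  ⟨[3,2,0,3,0,3],[(9,0)],[(39,1)],true⟩,
  ⟨[3,3,0,2,2,3],[(42,0)],[(8,4)],false⟩,
  ⟨[1,0,3,0,3,3],[(7,0)],[(43,1)],true⟩,
  ⟨[0,0,0,3,3,3],[(12,0)],[(25,2)],true⟩]

def cert1 : List Node := [
  ⟨[3,3,1,2,2,2],[(41,0)],[(15,2),(42,0)],true⟩,
  ⟨[0,3,0,3,0,1],[(46,0)],[(6,4)],false⟩,
  ⟨[3,2,1,2,1,2,1],[(9,0)],[(47,1)],false⟩,
  ⟨[1,2,2,2,0,3,3],[(15,0)],[(19,2)],false⟩,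
  ⟨[2,2,0,3,0,0,0],[(32,0)],[(12,4)],false⟩,
  ⟨[1,2,2,2,2,1,2],[(15,0)],[(30,2)],false⟩,
  ⟨[2,2,0,3,0,0,2],[(32,0)],[(24,3)],true⟩,
  ⟨[3,1,1,2,1,3,3],[(21,0)],[(34,2)],false⟩,
  ⟨[3,0,2,2,2,2,1,3],[(36,0)],[(22,3)],false⟩,
  ⟨[0,3,3,3,3,1,2],[(25,0)],[(37,2)],false⟩,
  ⟨[1,1,2,2,1,2,1],[(16,0)],[(38,2)],false⟩,
  ⟨[2,2,0,3,3,0,2,2],[(19,0)],[(42,3)],true⟩,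
  ⟨[3,3,0,2,2,1,3,3],[(42,0)],[(26,3)],false⟩,
  ⟨[0,0,0,3,0,3,0],[(12,0)],[(46,2)],true⟩,
  ⟨[1,0,2,2,0,2,1,2],[(7,0)],[(51,1)],true⟩,
  ⟨[2,2,0,2,2,1,3,2],[(52,0)],[(9,6)],false⟩,
  ⟨[3,2,0,3,3,1,3,3],[(9,0)],[(53,1)],true⟩,
  ⟨[3,2,0,3,0,2,1,3],[(9,0)],[(54,1)],true⟩,
  ⟨[3,2,2,0,3,1,2,1],[(9,0)],[(56,1)],true⟩,
  ⟨[3,3,1,3,3,3,1,0],[(62,0)],[(7,6)],false⟩,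
  ⟨[2,2,2,1,2,2,0,3],[(30,0)],[(31,3)],false⟩,
  ⟨[3,0,2,2,2,0,3,0],[(36,0)],[(32,3)],true⟩,
  ⟨[3,3,3,1,2,1,3,3],[(37,0)],[(34,3)],false⟩,
  ⟨[0,2,2,0,0,3,3,1,1],[(49,0)],[(45,3)],true⟩,
  ⟨[3,0,0,2,1,2,1,2],[(24,0)],[(59,1)],false⟩,
  ⟨[0,2,2,2,0,2,2,1,3],[(61,0)],[(52,2)],true⟩,
  ⟨[0,2,0,2,2,2,0,2,3],[(71,0)],[(8,7)],false⟩,
  ⟨[0,2,2,2,0,0,3,0,3],[(50,0)],[(57,2)],false⟩,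
  ⟨[2,2,0,2,2,1,1,3,3,3],[(72,0)],[(69,2),(38,0),(38,2)],false⟩,
  ⟨[1,0,2,0,2,2,2,0,3],[(7,0)],[(74,1)],true⟩,
  ⟨[1,3,1,3,1,2,2,1,0],[(75,0),(32,3)],[(7,7)],true⟩,
  ⟨[1,3,1,3,1,2,2,3],[(76,0),(8,6)],[(8,6)],true⟩,
  ⟨[1,3,1,3,1,2,3],[(77,0),(8,5)],[(8,5)],true⟩,
  ⟨[0,1,3,1,3,1],[(6,0)],[(78,1)],true⟩,
  ⟨[1,3,1,3,1,0],[(78,0)],[(7,4)],false⟩,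
  ⟨[0,2,0,2,0,2,3],[(79,0)],[(8,5)],true⟩,
  ⟨[0,0,0,2,0,2,0],[(12,0)],[(81,2)],true⟩,
  ⟨[3,0,0,2,0,2,0],[(24,0)],[(81,2)],true⟩,
  ⟨[2,1,2,1,3,1,3,1],[(40,0)],[(78,3)],true⟩,
  ⟨[3,1,2,2,0,2,0,2,0],[(35,0)],[(80,3)],false⟩]

def cert2 : List Node := [
  ⟨[3,2,2,0,3,1,1,3,0,3],[(9,0)],[(73,1)],true⟩,
  ⟨[2,2,1,2,2,0,2,0,3],[(85,0),(68,1)],[(66,2)],true⟩,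
  ⟨[2,2,2,2,2,2,2,2,1,0],[(87,0),(7,7)],[(7,8)],true⟩,
  ⟨[0,3,0,3,3,0,2,0,0,2],[(43,0),(81,2)],[(63,3)],true⟩,
  ⟨[3,0,3,1,3,1,3,3,1],[(83,0)],[(29,5)],true⟩,
  ⟨[1,1,2,1,2,2,0,2,0,2],[(60,0)],[(84,2),(29,1)],true⟩,
  ⟨[3,3,0,0,3,3,1,3,3,0],[(28,0)],[(65,3)],false⟩,
  ⟨[2,2,0,3,0,2,0,2,2,2],[(32,0)],[(67,3)],true⟩,
  ⟨[2,0,2,0,2,0,3,0,2,1,3],[(80,0),(44,2)],[(54,4)],true⟩,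
  ⟨[2,0,2,0,3,0,2,0,0,2,3],[(94,0)],[(8,9)],false⟩,
  ⟨[2,2,2,2,2,2,2,2,0,3,3],[(88,0)],[(19,6)],false⟩,
  ⟨[0,3,0,3,1,3,3,3,3,0],[(58,0)],[(90,1)],true⟩,
  ⟨[2,2,1,3,3,3,0,2,1,3,1],[(26,0)],[(91,2)],true⟩,
  ⟨[1,2,1,3,3,3,3,1,3,3,0],[(34,0),(29,3)],[(92,1),(95,0)],false⟩,
  ⟨[3,3,3,3,3,3,0,3,3,0,1],[(99,0)],[(6,9)],false⟩,
  ⟨[3,2,0,2,0,3,0,2,0,0,3,1],[(9,0)],[(100,1),(96,0)],false⟩,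
  ⟨[1,0,2,0,3,0,2,0,0,3,1],[(7,0)],[(101,1),(15,0),(33,3)],true⟩,
  ⟨[0,2,2,2,2,0,3,1,2,3],[(102,0)],[(8,8)],false⟩,
  ⟨[3,2,0,3,0,2,0,0,3,1,3],[(9,0)],[(103,1),(36,0)],false⟩,
  ⟨[1,0,3,0,2,0,0,3,1,3],[(7,0)],[(104,1)],true⟩,
  ⟨[0,3,0,2,0,0,3,1,3,2],[(104,0)],[(9,8)],false⟩,
  ⟨[1,2,0,3,0,2,0,3,1,0],[(105,0)],[(7,8)],false⟩,
  ⟨[3,2,0,3,0,2,0,3,1,2],[(9,0)],[(106,1)],true⟩,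
  ⟨[2,3,0,2,0,0,3,1,3,0],[(8,0)],[(107,1)],true⟩,
  ⟨[3,0,3,0,2,0,0,3,1,0],[(108,0)],[(7,8)],false⟩,
  ⟨[2,1,2,0,3,0,2,0,3,2],[(109,0)],[(9,8)],false⟩,
  ⟨[1,0,3,0,2,0,3,1,2,0],[(7,0)],[(110,1)],true⟩,
  ⟨[1,0,2,0,0,3,1,3,0,2],[(7,0)],[(111,1)],true⟩,
  ⟨[1,3,0,3,0,2,0,0,3,2],[(112,0)],[(9,8)],false⟩,
  ⟨[1,2,1,2,0,3,0,2,0,1],[(113,0)],[(6,8)],false⟩,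
  ⟨[2,3,0,2,0,3,1,2,0,2],[(8,0)],[(114,1)],true⟩,
  ⟨[3,2,0,0,3,1,3,0,2,1],[(9,0)],[(115,1)],true⟩,
  ⟨[2,1,3,0,3,0,2,0,0,1],[(116,0)],[(6,8)],false⟩,
  ⟨[3,1,2,1,2,0,3,0,2,3],[(117,0)],[(8,8)],false⟩,
  ⟨[1,0,2,0,3,1,2,0,2,1],[(7,0)],[(118,1)],true⟩,
  ⟨[1,0,0,3,1,3,0,2,1,3],[(7,0)],[(119,1)],true⟩,
  ⟨[2,1,2,1,3,0,3,0,2,0],[(40,0)],[(120,1)],false⟩,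
  ⟨[0,3,0,2,0,0,3,1,3,1,3],[(104,0)],[(82,4)],true⟩,
  ⟨[2,2,1,3,1,2,1,2,0,3,0],[(70,0)],[(121,2)],false⟩,
  ⟨[0,3,0,2,1,1,2,0,2,0,1],[(123,0)],[(6,9)],false⟩]

def cert3 : List Node := [
  ⟨[2,3,1,1,3,0,3,0,0,3,0],[(8,0)],[(124,1)],true⟩,
  ⟨[3,2,0,3,0,2,0,3,1,1,3,1],[(9,0)],[(125,1)],false⟩,
  ⟨[2,2,2,0,3,1,3,0,2,1,3,2],[(126,0)],[(9,10)],false⟩,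
  ⟨[1,0,3,0,2,0,3,1,1,3,1],[(7,0)],[(127,1)],true⟩,
  ⟨[0,1,1,3,0,3,0,0,3,0,2],[(6,0)],[(128,1)],true⟩,
  ⟨[3,1,1,2,1,2,0,3,0,2,0],[(21,0),(122,2),(18,1)],[(113,2)],true⟩,
  ⟨[2,3,1,2,0,0,3,1,3,0,2],[(8,0)],[(131,1)],true⟩,
  ⟨[2,2,1,2,2,1,2,0,2,1,0],[(132,0)],[(7,9)],false⟩,
  ⟨[0,1,2,0,0,3,1,3,0,2,0],[(6,0)],[(133,1)],true⟩,
  ⟨[0,2,2,1,2,2,1,2,0,2,3],[(134,0)],[(8,9)],false⟩,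
  ⟨[3,2,0,0,3,1,3,0,2,0,3],[(9,0)],[(135,1)],true⟩,
  ⟨[3,0,2,2,1,2,2,1,2,0,1],[(136,0)],[(6,9)],false⟩,
  ⟨[1,0,0,3,1,3,0,2,0,3,1],[(7,0)],[(137,1)],true⟩,
  ⟨[1,3,0,2,2,1,2,2,1,2,1],[(138,0)],[(38,6)],true⟩,
  ⟨[1,3,0,2,2,1,3,1,2,2,3],[(139,0)],[(8,9)],false⟩,
  ⟨[1,3,0,3,0,2,1,1,2,0,2,2],[(129,0)],[(86,3)],true⟩,
  ⟨[1,3,0,2,0,3,1,1,3,0,3,2],[(141,0),(64,4),(81,1),(29,4)],[(9,10)],true⟩,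
  ⟨[3,3,0,2,2,1,3,0,2,0,3,1],[(42,0)],[(97,2)],false⟩,
  ⟨[0,3,1,3,0,2,0,3,1,1,3,0],[(140,0)],[(142,2),(25,0),(13,2),(28,0)],true⟩,
  ⟨[3,2,1,3,3,3,3,3,3,0,2,1],[(9,0)],[(144,1)],true⟩,
  ⟨[3,1,3,0,2,2,1,3,1,2,0,1],[(145,0)],[(6,10)],false⟩,
  ⟨[0,1,3,3,3,3,3,3,0,2,1,1],[(6,0)],[(146,1)],true⟩,
  ⟨[0,3,1,3,0,2,2,1,3,1,2,3],[(147,0)],[(8,10)],false⟩,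
  ⟨[2,3,3,3,3,3,3,0,2,1,1,3],[(8,0)],[(148,1)],true⟩,
  ⟨[2,0,3,1,3,0,2,2,1,3,1,0],[(149,0)],[(7,10)],false⟩,
  ⟨[2,3,3,3,3,3,0,2,1,1,3,0],[(8,0)],[(150,1)],true⟩,
  ⟨[2,2,0,3,1,3,0,2,2,1,3,2],[(151,0)],[(9,10)],false⟩,
  ⟨[2,3,3,3,3,0,2,1,1,3,0,2],[(8,0)],[(152,1)],true⟩,
  ⟨[2,2,2,0,3,1,3,0,2,2,1,0],[(153,0)],[(7,10)],false⟩,
  ⟨[2,3,3,3,0,2,1,1,3,0,2,0],[(8,0)],[(154,1)],true⟩,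
  ⟨[2,2,2,2,0,3,1,3,0,2,2,3],[(155,0)],[(8,10)],false⟩,
  ⟨[2,3,3,0,2,1,1,3,0,2,0,3],[(8,0)],[(156,1)],true⟩,
  ⟨[2,2,2,2,2,0,3,1,3,0,2,3],[(157,0)],[(8,10)],false⟩,
  ⟨[2,3,0,2,1,1,3,0,2,0,3,3],[(8,0)],[(158,1)],true⟩,
  ⟨[2,2,2,2,2,2,0,3,1,3,0,1],[(159,0)],[(6,10)],false⟩,
  ⟨[1,0,2,1,1,3,0,2,0,3,3,1],[(7,0)],[(160,1),(15,0)],true⟩,
  ⟨[1,0,2,2,0,2,2,2,0,3,1,3],[(7,0)],[(161,1)],true⟩,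
  ⟨[1,2,1,1,3,0,2,0,3,3,1,0],[(162,0)],[(7,10)],false⟩,
  ⟨[3,2,2,0,2,2,2,0,3,1,3,0],[(9,0)],[(163,1)],true⟩,
  ⟨[3,1,2,1,1,3,0,2,0,3,3,2],[(164,0)],[(9,10)],false⟩]

def cert4 : List Node := [
  ⟨[2,0,2,2,2,0,3,1,3,0,2,1],[(165,0)],[(130,1)],false⟩,
  ⟨[2,3,1,2,1,1,3,0,2,0,3,1],[(8,0)],[(166,1)],true⟩,
  ⟨[2,2,2,1,3,0,3,0,0,3,0,2],[(22,0)],[(167,1)],true⟩,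
  ⟨[2,1,2,1,1,3,0,2,0,3,1,0],[(168,0)],[(7,10)],false⟩,
  ⟨[1,0,0,2,0,3,0,0,3,0,2,0],[(7,0)],[(169,1),(48,0)],true⟩,
  ⟨[2,3,0,3,0,3,1,3,0,2,0,3],[(8,0)],[(170,1)],true⟩,
  ⟨[2,0,2,0,3,0,0,3,0,2,0,1],[(171,0),(143,0)],[(6,10)],false⟩,
  ⟨[2,3,3,3,3,0,3,0,0,3,3,0],[(8,0)],[(172,1),(93,0)],true⟩,
  ⟨[1,0,2,2,2,2,0,2,2,2,2],[(7,0)],[(173,1)],true⟩,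
  ⟨[1,3,3,3,0,3,0,0,3,3,0,1],[(174,0)],[(6,10)],true⟩,
  ⟨[1,3,3,3,0,3,0,0,3,3,2],[(175,0),(30,6)],[(9,9)],false⟩,
  ⟨[2,2,2,2,0,2,1,2,2,0,2],[(176,0),(9,8)],[(98,0)],true⟩,
  ⟨[3,0,0,3,0,2,1,3,1,0],[(177,0),(12,6)],[(7,8)],false⟩,
  ⟨[0,1,3,3,3,0,3,1,1],[(6,0)],[(178,1),(89,0)],true⟩,
  ⟨[2,3,3,3,1,3,1,3,0,2],[(8,0)],[(179,1),(8,0)],false⟩,
  ⟨[2,3,3,1,3,1,3,0,2],[(8,0)],[(180,1),(8,0)],false⟩,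
  ⟨[2,3,1,3,1,3,0,2],[(8,0)],[(181,1),(8,0)],false⟩,
  ⟨[1,3,1,3,0,2,3],[(182,0)],[(8,5)],true⟩,
  ⟨[1,3,1,3,0,1],[(183,0)],[(6,4)],false⟩,
  ⟨[1,0,3,1,1,3,1],[(7,0)],[(184,1)],true⟩,
  ⟨[1,1,3,1,3,2],[(185,0)],[(9,4)],false⟩,
  ⟨[1,1,1,3,1,3],[(13,0)],[(185,1)],true⟩,
  ⟨[3,3,1,1,3,1,2],[(186,1)],[(55,0)],true⟩,
  ⟨[1,0,3,1,2,1,3],[(7,0)],[(188,1),(187,0)],true⟩,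
  ⟨[0,0,3,1,3,2],[(189,0),(9,4)],[(9,4)],true⟩,
  ⟨[0,0,3,1,0],[(190,0),(7,3)],[(7,3)],true⟩,
  ⟨[1,0,0,3],[(7,0)],[(191,1)],true⟩,
  ⟨[0,0,3,2],[(191,0)],[(9,2)],false⟩,
  ⟨[1,3,1,2,3],[(192,0)],[(8,3)],true⟩,
  ⟨[2,3,1,2,2],[(8,0)],[(193,1)],false⟩,
  ⟨[1,3,1,0],[(194,0)],[(7,2)],false⟩,
  ⟨[0,1,2,2],[(6,0)],[(195,1)],true⟩,
  ⟨[1,0,3,3,0],[(7,0)],[(196,1)],true⟩,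
  ⟨[0,2,0,0,1],[(197,0)],[(6,3)],true⟩,
  ⟨[0,2,0,1],[(199,0)],[(6,2)],false⟩,
  ⟨[3,1,2,2,0],[(193,0),(12,0)],[(35,0)],true⟩,
  ⟨[2,2,1,2,3],[(201,0),(198,0)],[(8,3)],false⟩,
  ⟨[3,3,0,1],[(202,0),(200,0)],[(6,2)],false⟩,
  ⟨[1,0,2],[(7,0)],[(203,1)],true⟩,
  ⟨[0,2,3],[(203,0)],[(8,1)],false⟩]

def cert5 : List Node := [
  ⟨[1,3,3,2],[(204,0)],[(9,2)],true⟩,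
  ⟨[3,3,3,3],[(205,0)],[(205,1)],false⟩,
  ⟨[1,3,2],[(206,0)],[(9,1)],false⟩,
  ⟨[2,3,3,0],[(8,0)],[(202,1),(208,0)],true⟩,
  ⟨[0,1,1],[(6,0)],[(209,1),(207,0)],true⟩,
  ⟨[2,3,0,0],[(8,0)],[(210,1)],false⟩,
  ⟨[1,1,1],[(209,0),(6,1)],[(13,0),(211,0)],true⟩,
  ⟨[2,1,0],[(212,0)],[(7,1)],false⟩,
  ⟨[2,3,0],[(8,0)],[(213,1)],true⟩]

def cert : List Node := cert0 ++ cert1 ++ cert2 ++ cert3 ++ cert4 ++ cert5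

end Pool.Agent.Helper19.Wh
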