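/-
Soundness of the rewriting certificate checker, and the group-theoretic consequence:
in every group, t^5 = 1 and t^3 w^3 = w^2 t imply w^2 = t.
-/
import Pool.Agent.Helper19.Wh.Cert
import Mathlib

set_option autoImplicit false

namespace Pool.Agent.Helper19.Wh

/-- remove the prefix `l` from `w` -/
def strip : List Nat → List Nat → Option (List Nat)
  | [], w => some w
  | a :: l, b :: w => if Nat.beq a b then strip l w else none
  | _ :: _, [] => none

/-- replace the factor `l` of `w` at position `p` by `r` -/
def applyAt (l r : List Nat) : Nat → List Nat → Option (List Nat)
  | 0, w => match strip l w with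
    | some v => some (r ++ v)
    | none => none
  | _ + 1, [] => none
  | p + 1, b :: w => match applyAt l r p w with
    | some v => some (b :: v)
    | none => none

/-- lookup -/
def nth : List (List Nat × List Nat) → Nat → Option (List Nat × List Nat)
  | [], _ => none
  | x :: _, 0 => some x
  | _ :: xs, n + 1 => nth xs n

/-- follow a path -/
def path (rs : List (List Nat × List Nat)) : List (Nat × Nat) → List Nat → Option (List Nat)
  | [], w => some w
  | s :: ss, w => match nth rs s.1 with
    | none => none
    | some lr => match applyAt lr.1 lr.2 s.2 w with
      | none => none
      | some v => path rs ss v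

/-- run the certificate -/
def run : List (List Nat × List Nat) → List Node → Option (List (List Nat × List Nat))
  | rs, [] => some rs
  | rs, n :: ns => match path rs n.p1 n.start, path rs n.p2 n.start with
    | some a, some b => run (rs ++ [if n.sw then (b, a) else (a, b)]) ns
    | _, _ => none

variable {G : Type*} [Group G]

/-- evaluation of words -/
def ev (f : Nat → G) (w : List Nat) : G := (w.map f).prod

theorem strip_sound (f : Nat → G) : ∀ (l w v : List Nat), strip l w = some v → w = l ++ v := by
  intro l
  induction l with
  | nil => intro w v h; simp [strip] at h; simp [h]
  | cons a l ih =>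
    intro w v h
    cases w with
    | nil => simp [strip] at h
    | cons b w =>
      simp only [strip] at h
      split at h
      · rename_i hb
        have := ih w v h
        have hab : a = b := Nat.eq_of_beq_eq_true hb
        simp [this, hab]
      · exact absurd h (by simp)

theorem applyAt_sound (f : Nat → G) (l r : List Nat) (hlr : ev f l = ev f r) :
    ∀ (p : Nat) (w v : List Nat), applyAt l r p w = some v → ev f w = ev f v := by
  intro p
  induction p with
  | zero =>
    intro w v h
    simp only [applyAt] at h
    split at h
    · rename_i u hu
      have h1 := strip_sound f l w u hu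
      simp only [Option.some.injEq] at h
      subst h
      rw [h1]
      simp only [ev, List.map_append, List.prod_append] at *
      rw [hlr]
    · exact absurd h (by simp)
  | succ p ih =>
    intro w v h
    cases w with
    | nil => simp [applyAt] at h
    | cons b w =>
      simp only [applyAt] at h
      split at h
      · rename_i u hu
        have h1 := ih w u hu
        simp only [Option.some.injEq] at h
        subst h
        simp only [ev, List.map_cons, List.prod_cons] at *
        rw [h1]
      · exact absurd h (by simp)

theorem nth_mem : ∀ (rs : List (List Nat × List Nat)) (n : Nat) (x : List Nat × List Nat),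
    nth rs n = some x → x ∈ rs := by
  intro rs
  induction rs with
  | nil => intro n x h; simp [nth] at h
  | cons a rs ih =>
    intro n x h
    cases n with
    | zero => simp [nth] at h; simp [h]
    | succ n => simp only [nth] at h; exact List.mem_cons_of_mem _ (ih n x h)

theorem path_sound (f : Nat → G) (rs : List (List Nat × List Nat))
    (hrs : ∀ x ∈ rs, ev f x.1 = ev f x.2) :
    ∀ (ss : List (Nat × Nat)) (w v : List Nat), path rs ss w = some v → ev f w = ev f v := by
  intro ss
  induction ss with
  | nil => intro w v h; simp [path] at h; rw [h]
  | cons s ss ih =>
    intro w v h
    simp only [path] at h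
    split at h
    · exact absurd h (by simp)
    · rename_i lr hlr
      split at h
      · exact absurd h (by simp)
      · rename_i u hu
        have h1 := applyAt_sound f lr.1 lr.2 (hrs lr (nth_mem rs _ _ hlr)) _ _ _ hu
        rw [h1]; exact ih u v h

theorem run_sound (f : Nat → G) : ∀ (ns : List Node) (rs out : List (List Nat × List Nat)),
    (∀ x ∈ rs, ev f x.1 = ev f x.2) → run rs ns = some out → ∀ x ∈ out, ev f x.1 = ev f x.2 := by
  intro ns
  induction ns with
  | nil => intro rs out hrs h; simp [run] at h; rw [← h]; exact hrs
  | cons n ns ih =>
    intro rs out hrs h
    simp only [run] at h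
    split at h
    · rename_i a b ha hb
      refine ih _ _ ?_ h
      intro x hx
      rw [List.mem_append] at hx
      rcases hx with hx | hx
      · exact hrs x hx
      · have h1 := path_sound f rs hrs _ _ _ ha
        have h2 := path_sound f rs hrs _ _ _ hb
        simp only [List.mem_singleton] at hx
        subst hx
        split
        · exact h2.symm.trans h1
        · exact h1.symm.trans h2
    · exact absurd h (by simp)

/-- does the result list contain the pair `w w = t`? -/
def good : Option (List (List Nat × List Nat)) → Bool
  | none => false
  | some rs => rs.any (fun x => (decide (x.1 = [2, 2])) && (decide (x.2 = [0])))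

theorem cert_good : good (run axioms cert) = true := by
  decide +kernel

/-- the letters -/
def letter (t w : G) : Nat → G
  | 0 => t
  | 1 => t⁻¹
  | 2 => w
  | _ => w⁻¹

theorem sq_eq (t w : G) (h5 : t ^ 5 = 1) (h : t ^ 3 * w ^ 3 = w ^ 2 * t) : w ^ 2 = t := by
  have hg := cert_good
  cases hr : run axioms cert with
  | none => rw [hr] at hg; simp [good] at hg
  | some rs =>
    rw [hr] at hg
    simp only [good, List.any_eq_true, Bool.and_eq_true, decide_eq_true_eq] at hg
    obtain ⟨x, hx, h1, h2⟩ := hg
    have := run_sound (letter t w) cert axioms rs ?_ hr x hx
    · rw [h1, h2] at this
      simpa [ev, letter, pow_two] using this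
    · intro y hy
      simp only [axioms, List.mem_cons, List.not_mem_nil, or_false] at hy
      rcases hy with rfl | rfl | rfl | rfl | rfl | rfl
      · simp [ev, letter]
      · simp [ev, letter]
      · simp [ev, letter]
      · simp [ev, letter]
      · have : t ^ 5 = t * (t * (t * (t * t))) := by simp only [pow_succ, pow_zero]; group
        simp [ev, letter]
        rw [← this, h5]
      · have e1 : t ^ 3 * w ^ 3 = t * (t * (t * (w * (w * w)))) := by
          simp only [pow_succ, pow_zero, one_mul, mul_assoc]
        have e2 : w ^ 2 * t = w * (w * t) := by
          simp only [pow_succ, pow_zero, one_mul, mul_assoc]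
        simp [ev, letter]
        rw [← e1, ← e2, h]

end Pool.Agent.Helper19.Wh
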