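import Pool.Agent.Helper19.Wh.Group

/-!
# Trivial presentation data with nonzero torsion over every group with an element of order five which
survives in the abelianisation
-/

set_option autoImplicit false

namespace Pool.Agent.Helper19.Wh

open MonoidAlgebra

/-- A presentation datum over `π` with `n` generators, given by the factorisations of its relators. -/
abbrev Datum (π : Type) (n : ℕ) : Type := Fin n → List (π × Fin n × ℤˣ)

variable {π : Type} [Group π] {n : ℕ}

/-- the relators -/
noncomputable def relator (P : Datum π n) (i : Fin n) : Monoid.Coprod π (FreeGroup (Fin n)) :=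
  ((P i).map fun s => Monoid.Coprod.inl s.1 *
    Monoid.Coprod.inr (FreeGroup.of s.2.1) ^ ((s.2.2 : ℤˣ) : ℤ) * (Monoid.Coprod.inl s.1)⁻¹).prod

/-- the matrix -/
noncomputable def mat (P : Datum π n) : Matrix (Fin n) (Fin n) (MonoidAlgebra ℤ π) :=
  Matrix.of fun i j =>
    ((P i).map fun s => if s.2.1 = j then single s.1 ((s.2.2 : ℤˣ) : ℤ) else 0).sum

/-- triviality -/
def IsTrivial (P : Datum π n) : Prop :=
  (Monoid.Coprod.lift (MonoidHom.id π) (1 : FreeGroup (Fin n) →* π)).ker =
    Subgroup.normalClosure (Set.range (relator P))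

/-- the class of `X` in the Whitehead group is zero -/
def ZeroTorsion (X : Matrix (Fin n) (Fin n) (MonoidAlgebra ℤ π)) : Prop :=
  ∃ (m : ℕ) (E : List ((Fin n ⊕ Fin m) × (Fin n ⊕ Fin m) × MonoidAlgebra ℤ π))
    (d : Fin n ⊕ Fin m → π) (s : Fin n ⊕ Fin m → ℤˣ),
    (∀ e ∈ E, e.1 ≠ e.2.1) ∧
    Matrix.fromBlocks X 0 0 (1 : Matrix (Fin m) (Fin m) (MonoidAlgebra ℤ π)) =
      (E.map (fun e => (1 : Matrix (Fin n ⊕ Fin m) (Fin n ⊕ Fin m) (MonoidAlgebra ℤ π)) +
          Matrix.of (fun a b => if a = e.1 ∧ b = e.2.1 then e.2.2 else 0))).prod *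
        Matrix.diagonal (fun k => single (d k) ((s k : ℤˣ) : ℤ))

/-- the unit `-1 + t + t ^ 4` -/
noncomputable def uu (t : π) : MonoidAlgebra ℤ π := single 1 (-1) + (single t 1 + single (t ^ 4) 1)

/-- the datum with `k` generators -/
def datum (t : π) (k : ℕ) : Datum π k := fun i =>
  [(1, i, -1), (t, i, 1), (t ^ 3, i, -1), (t ^ 4, i, 1), (t ^ 3, i, 1)]

theorem single_neg19 (g : π) : (single g (-1 : ℤ) : MonoidAlgebra ℤ π) = - single g (1 : ℤ) := by
  rw [eq_neg_iff_add_eq_zero, ← single_add]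
  simp

theorem mat_datum (t : π) (k : ℕ) : mat (datum t k) = Matrix.diagonal fun _ => uu t := by
  ext1 i j
  simp only [mat, datum, Matrix.of_apply, List.map_cons, List.map_nil, List.sum_cons, List.sum_nil,
    Matrix.diagonal_apply]
  by_cases h : i = j
  · simp only [h, if_true, uu, Units.val_neg, Units.val_one, single_neg19, add_zero]
    abel
  · simp only [h, if_false, add_zero]

theorem uu_mul_uu (t : π) (h5 : t ^ 5 = 1) : uu t * uu (t ^ 2) = 1 := by
  unfold uu
  simp only [mul_add, add_mul, single_mul_single]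
  have h1 : t * t ^ 2 = t ^ 3 := by group
  have h2 : t * (t ^ 2) ^ 4 = t ^ 4 := by
    have : t * (t ^ 2) ^ 4 = t ^ 5 * t ^ 4 := by group
    rw [this, h5, one_mul]
  have h3 : t ^ 4 * t ^ 2 = t := by
    have : t ^ 4 * t ^ 2 = t ^ 5 * t := by group
    rw [this, h5, one_mul]
  have h4 : t ^ 4 * (t ^ 2) ^ 4 = t ^ 2 := by
    have : t ^ 4 * (t ^ 2) ^ 4 = t ^ 5 * (t ^ 5 * t ^ 2) := by group
    rw [this, h5, one_mul, one_mul]
  have h5' : (t ^ 2) ^ 4 = t ^ 3 := by
    have : (t ^ 2) ^ 4 = t ^ 5 * t ^ 3 := by group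
    rw [this, h5, one_mul]
  rw [h1, h2, h3, h4, h5', one_def]
  simp only [one_mul, mul_one, mul_neg, neg_neg, single_neg19]
  abel

theorem isTrivial_datum (t : π) (h5 : t ^ 5 = 1) (k : ℕ) : IsTrivial (datum t k) := by
  unfold IsTrivial
  set phi : Monoid.Coprod π (FreeGroup (Fin k)) →* π :=
    Monoid.Coprod.lift (MonoidHom.id π) (1 : FreeGroup (Fin k) →* π) with hphi
  apply le_antisymm
  · intro y hy
    set N := Subgroup.normalClosure (Set.range (relator (datum t k))) with hN
    let q : Monoid.Coprod π (FreeGroup (Fin k)) →* Monoid.Coprod π (FreeGroup (Fin k)) ⧸ N :=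
      QuotientGroup.mk' N
    have hqrel : ∀ i, q (relator (datum t k) i) = 1 := by
      intro i
      change ((relator (datum t k) i : Monoid.Coprod π (FreeGroup (Fin k))) :
        Monoid.Coprod π (FreeGroup (Fin k)) ⧸ N) = 1
      rw [QuotientGroup.eq_one_iff]
      exact Subgroup.subset_normalClosure ⟨i, rfl⟩
    have hqx : ∀ i, q (Monoid.Coprod.inr (FreeGroup.of i)) = 1 := by
      intro i
      apply x_eq_one (q (Monoid.Coprod.inl t)) _
      · rw [← map_pow, ← map_pow, h5, map_one, map_one]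
      · rw [← hqrel i]
        simp only [relator, datum, List.map_cons, List.map_nil, List.prod_cons, List.prod_nil,
          mul_one, Units.val_neg, Units.val_one, zpow_neg, zpow_one, map_mul, map_inv, map_pow,
          map_one, one_mul, inv_one]
        group
    have hcomp : q = (q.comp Monoid.Coprod.inl).comp phi := by
      apply Monoid.Coprod.hom_ext
      · ext g
        simp [hphi]
      · apply FreeGroup.ext_hom
        intro a
        have h1 : phi (Monoid.Coprod.inr (FreeGroup.of a)) = 1 := by simp [hphi]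
        change q (Monoid.Coprod.inr (FreeGroup.of a)) =
          q (Monoid.Coprod.inl (phi (Monoid.Coprod.inr (FreeGroup.of a))))
        rw [hqx, h1, map_one, map_one]
    have hy1 : phi y = 1 := hy
    have hqy : q y = 1 := by
      rw [hcomp]
      simp [hy1]
    exact (QuotientGroup.eq_one_iff y).mp hqy
  · apply Subgroup.normalClosure_le_normal
    rintro _ ⟨i, rfl⟩
    change phi (relator (datum t k) i) = 1
    simp [relator, datum, hphi]

/-! ### The torsion is not zero -/

/-- the standard character of the cyclic group of order five -/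
noncomputable def chi : MonoidAlgebra ℤ (Multiplicative (ZMod 5)) →ₐ[ℤ] ℂ :=
  lift ℤ ℂ (Multiplicative (ZMod 5)) (ZMod.stdAddChar (N := 5)).toMonoidHom

theorem chi_single (g : Multiplicative (ZMod 5)) (c : ℤ) :
    chi (single g c) = c * ZMod.stdAddChar (N := 5) g.toAdd := by
  simp [chi, lift_single]

theorem norm_chi_single (g : Multiplicative (ZMod 5)) (c : ℤˣ) :
    ‖chi (single g (c : ℤ))‖ = 1 := by
  rw [chi_single, norm_mul]
  have h1 : ‖((c : ℤ) : ℂ)‖ = 1 := by
    rcases Int.units_eq_one_or c with rfl | rfl <;> simp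
  rw [h1, one_mul, ZMod.stdAddChar_apply, Circle.norm_coe]

theorem norm_chi_uu : ‖chi (uu (Multiplicative.ofAdd (1 : ZMod 5)))‖ < 1 := by
  have h0 : chi (uu (Multiplicative.ofAdd (1 : ZMod 5))) =
      ((2 * Real.cos (2 * Real.pi / 5) - 1 : ℝ) : ℂ) := by
    simp only [uu, map_add, chi_single]
    have e1 : ZMod.stdAddChar (N := 5) (1 : ZMod 5) =
        Complex.exp (2 * Real.pi * Complex.I * ((1 : ℤ) : ℂ) / ((5 : ℕ) : ℂ)) := by
      have := ZMod.stdAddChar_coe (N := 5) 1
      simpa using this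
    have e4 : ZMod.stdAddChar (N := 5) (4 : ZMod 5) =
        Complex.exp (2 * Real.pi * Complex.I * ((-1 : ℤ) : ℂ) / ((5 : ℕ) : ℂ)) := by
      have := ZMod.stdAddChar_coe (N := 5) (-1)
      rw [← this]
      congr 1
    have e5 : (Multiplicative.ofAdd (1 : ZMod 5) ^ 4).toAdd = (4 : ZMod 5) := by decide
    rw [e5, e4]
    have e6 : (Multiplicative.ofAdd (1 : ZMod 5)).toAdd = (1 : ZMod 5) := rfl
    rw [e6, e1]
    have e7 : (1 : Multiplicative (ZMod 5)).toAdd = (0 : ZMod 5) := rfl
    rw [e7, AddChar.map_zero_eq_one]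
    rw [Complex.ofReal_sub, Complex.ofReal_mul, Complex.ofReal_cos, Complex.cos]
    push_cast
    have a1 : (2 * (Real.pi : ℂ) * Complex.I * 1 / 5) = 2 * (Real.pi : ℂ) / 5 * Complex.I := by ring
    have a2 : (2 * (Real.pi : ℂ) * Complex.I * -1 / 5) = -(2 * (Real.pi : ℂ) / 5) * Complex.I := by
      ring
    rw [a1, a2]
    ring
  rw [h0, Complex.norm_real, Real.norm_eq_abs, abs_lt]
  have h1 : 0 < Real.cos (2 * Real.pi / 5) := by
    apply Real.cos_pos_of_mem_Ioo
    constructor <;> linarith [Real.pi_pos]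
  have h2 : Real.cos (2 * Real.pi / 5) < 1 := by
    rw [← Real.cos_zero]
    apply Real.cos_lt_cos_of_nonneg_of_le_pi (le_refl _) <;> linarith [Real.pi_pos]
  constructor <;> linarith

/-- the homomorphism of the cyclic group of order five with `1 ↦ t` -/
def jj {C : Type} [CommGroup C] (t : C) (h5 : t ^ 5 = 1) : Multiplicative (ZMod 5) →* C where
  toFun a := t ^ (a.toAdd.val)
  map_one' := by simp
  map_mul' a b := by
    rw [toAdd_mul, ← pow_add, ZMod.val_add, ← pow_eq_pow_mod _ h5]

theorem jj_injective {C : Type} [CommGroup C] (t : C) (h5 : t ^ 5 = 1) (h1 : t ≠ 1) :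
    Function.Injective (jj t h5) := by
  haveI : Fact (Nat.Prime 5) := ⟨by norm_num⟩
  have hord : orderOf t = 5 := orderOf_eq_prime h5 h1
  intro a b hab
  have h2 : a.toAdd.val = b.toAdd.val := by
    refine pow_injOn_Iio_orderOf (x := t) ?_ ?_ hab
    · rw [hord]; exact ZMod.val_lt _
    · rw [hord]; exact ZMod.val_lt _
  exact Multiplicative.toAdd.injective (ZMod.val_injective 5 h2)

/-- powers of the unit are not trivial units -/
theorem uu_pow_ne {C : Type} [CommGroup C] (t : C) (h5 : t ^ 5 = 1) (h1 : t ≠ 1) {k : ℕ}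
    (hk : k ≠ 0) (g : C) (c : ℤˣ) : uu t ^ k ≠ single g (c : ℤ) := by
  classical
  intro h
  have hinj := jj_injective t h5 h1
  let F := mapDomainRingHom ℤ (jj t h5)
  set τ : Multiplicative (ZMod 5) := Multiplicative.ofAdd 1 with hτ
  have hjτ : jj t h5 τ = t := by
    change t ^ (ZMod.val (1 : ZMod 5)) = t
    have : ZMod.val (1 : ZMod 5) = 1 := rfl
    rw [this, pow_one]
  have hF : F (uu τ) = uu t := by
    simp only [F, uu, map_add, mapDomainRingHom_apply, mapDomain_single, map_one, map_pow, hjτ]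
  have hFk : mapDomain (jj t h5) (uu τ ^ k) = single g (c : ℤ) := by
    rw [← h, ← hF, ← map_pow]
    rfl
  have hcne : (c : ℤ) ≠ 0 := c.ne_zero
  have hy : uu τ ^ k ≠ 0 := by
    intro h0
    rw [h0, mapDomain_zero] at hFk
    have := congrArg (fun f : MonoidAlgebra ℤ C => f.coeff g) hFk
    simp at this
    exact hcne this.symm
  obtain ⟨a, ha⟩ : ∃ a, (uu τ ^ k).coeff a ≠ 0 := by
    by_contra hcon
    push_neg at hcon
    apply hy
    ext a
    simpa using hcon a
  have hga : g = jj t h5 a := by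
    by_contra hne
    have h2 : (mapDomain (jj t h5) (uu τ ^ k)).coeff (jj t h5 a) = (uu τ ^ k).coeff a := by
      change (Finsupp.mapDomain (jj t h5) (uu τ ^ k).coeff) (jj t h5 a) = _
      exact Finsupp.mapDomain_apply hinj _ _
    rw [hFk] at h2
    rw [coeff_single, Finsupp.single_apply, if_neg hne] at h2
    exact ha h2.symm
  have hyk : uu τ ^ k = single a (c : ℤ) := by
    apply mapDomain_injective hinj
    rw [hFk, mapDomain_single, hga]
  have h3 : ‖chi (uu τ)‖ ^ k = 1 := by
    rw [← norm_pow, ← map_pow, hyk, norm_chi_single]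
  exact absurd h3 (pow_lt_one₀ (norm_nonneg _) norm_chi_uu hk).ne

/-- being of the form `± g` -/
theorem single_prod19 {C : Type} [CommGroup C] {ι : Type*} (s : Finset ι)
    (f : ι → MonoidAlgebra ℤ C) (hf : ∀ i ∈ s, ∃ (g : C) (c : ℤˣ), f i = single g (c : ℤ)) :
    ∃ (g : C) (c : ℤˣ), ∏ i ∈ s, f i = single g (c : ℤ) := by
  classical
  induction s using Finset.induction_on with
  | empty => exact ⟨1, 1, by simp [one_def]⟩
  | insert a s ha ih =>
    rw [Finset.prod_insert ha]
    obtain ⟨g, c, h1⟩ := hf a (Finset.mem_insert_self a s)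
    obtain ⟨g', c', h2⟩ := ih (fun i hi => hf i (Finset.mem_insert_of_mem hi))
    refine ⟨g * g', c * c', ?_⟩
    rw [h1, h2, single_mul_single]
    simp

theorem not_zeroTorsion (t : π) (h5 : t ^ 5 = 1) (h1 : Abelianization.of t ≠ 1) {k : ℕ}
    (hk : k ≠ 0) : ¬ ZeroTorsion (mat (datum t k)) := by
  rintro ⟨m, E, d, s, hE, hdec⟩
  let F : MonoidAlgebra ℤ π →+* MonoidAlgebra ℤ (Abelianization π) :=
    mapDomainRingHom ℤ (Abelianization.of (G := π))
  have hFs : ∀ (g : π) (c : ℤ), F (single g c) = single (Abelianization.of g) c := by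
    intro g c
    simp [F, mapDomain_single]
  have hFu : F (uu t) = uu (Abelianization.of t) := by
    simp only [uu, map_add, hFs, map_one, map_pow]
  have hdet := congrArg (fun M => (F.mapMatrix M).det) hdec
  simp only [mat_datum] at hdet
  have hL : (F.mapMatrix (Matrix.fromBlocks (Matrix.diagonal fun _ : Fin k => uu t) 0 0
      (1 : Matrix (Fin m) (Fin m) (MonoidAlgebra ℤ π)))).det = uu (Abelianization.of t) ^ k := by
    rw [RingHom.mapMatrix_apply, Matrix.fromBlocks_map, Matrix.map_zero _ (map_zero F),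
      Matrix.map_zero _ (map_zero F), Matrix.det_fromBlocks_zero₂₁, Matrix.diagonal_map (map_zero F),
      Matrix.map_one _ (map_zero F) (map_one F), Matrix.det_one, mul_one, Matrix.det_diagonal]
    simp [hFu]
  have hEdet : (F.mapMatrix (E.map (fun e =>
      (1 : Matrix (Fin k ⊕ Fin m) (Fin k ⊕ Fin m) (MonoidAlgebra ℤ π)) +
      Matrix.of (fun a b => if a = e.1 ∧ b = e.2.1 then e.2.2 else 0))).prod).det = 1 := by
    clear hdet hdec hL
    induction E with
    | nil => simp
    | cons e E ih =>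
      rw [List.map_cons, List.prod_cons, map_mul, Matrix.det_mul,
        ih (fun e' he' => hE e' (List.mem_cons_of_mem _ he')), mul_one]
      have h2 : F.mapMatrix ((1 : Matrix (Fin k ⊕ Fin m) (Fin k ⊕ Fin m) (MonoidAlgebra ℤ π)) +
            Matrix.of (fun a b => if a = e.1 ∧ b = e.2.1 then e.2.2 else 0)) =
          Matrix.transvection e.1 e.2.1 (F e.2.2) := by
        rw [map_add, map_one]
        unfold Matrix.transvection
        congr 1
        ext1 a b
        simp only [RingHom.mapMatrix_apply, Matrix.map_apply, Matrix.of_apply, Matrix.single_apply]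
        by_cases hab : a = e.1 ∧ b = e.2.1
        · rw [if_pos hab, if_pos ⟨hab.1.symm, hab.2.symm⟩]
        · rw [if_neg hab, if_neg (fun h => hab ⟨h.1.symm, h.2.symm⟩), map_zero]
      rw [h2, Matrix.det_transvection_of_ne _ _ (hE e List.mem_cons_self)]
  rw [hL, map_mul, Matrix.det_mul, hEdet, one_mul, RingHom.mapMatrix_apply,
    Matrix.diagonal_map (map_zero F), Matrix.det_diagonal] at hdet
  obtain ⟨g, c, hgc⟩ := single_prod19 (Finset.univ : Finset (Fin k ⊕ Fin m))
    (fun i => F (single (d i) ((s i : ℤˣ) : ℤ))) (fun i _ => ⟨_, s i, hFs _ _⟩)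
  have h6 : (Abelianization.of t) ^ 5 = 1 := by rw [← map_pow, h5, map_one]
  exact uu_pow_ne (Abelianization.of t) h6 h1 hk g c (hdet.trans hgc)

end Pool.Agent.Helper19.Wh
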