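/-
In every group, t^5 = 1 and x^{-1} x_1 x_3^{-1} x_4 x_3 = 1 (with x_i = t^i x t^{-i}) imply x = 1.
-/
import Pool.Agent.Helper19.Wh.Check

set_option autoImplicit false

namespace Pool.Agent.Helper19.Wh

variable {G : Type*} [Group G]

theorem x_eq_one (t x : G) (h5 : t ^ 5 = 1)
    (hr : x⁻¹ * (t * x * t⁻¹) * ((t ^ 3 * x * (t ^ 3)⁻¹)⁻¹ * (t ^ 4 * x * (t ^ 4)⁻¹) *
      (t ^ 3 * x * (t ^ 3)⁻¹)) = 1) : x = 1 := by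
  set u : G := x⁻¹ * t * x with hu
  have ht3 : (t ^ 3)⁻¹ = t ^ 2 := by
    rw [inv_eq_iff_mul_eq_one, ← pow_add]; exact h5
  -- x = t u⁻¹ t⁻² u⁻¹ t³
  have hx : x = t * u⁻¹ * (t ^ 2)⁻¹ * u⁻¹ * t ^ 3 := by
    have h1 : u * t ^ 2 * u * t⁻¹ * x * (t ^ 3)⁻¹ = 1 := by
      rw [← hr, hu]; group
    have h2 : x = (u * t ^ 2 * u * t⁻¹)⁻¹ * (u * t ^ 2 * u * t⁻¹ * x * (t ^ 3)⁻¹) * t ^ 3 := by
      group
    rw [h1] at h2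
    rw [h2]; group
  -- x u = t x
  have hxu : x * u = t * x := by rw [hu]; group
  have h3 : u⁻¹ * (t ^ 2)⁻¹ * u⁻¹ * t ^ 3 * u = t * u⁻¹ * (t ^ 2)⁻¹ * u⁻¹ * t ^ 3 := by
    rw [hx] at hxu
    have : t * (u⁻¹ * (t ^ 2)⁻¹ * u⁻¹ * t ^ 3 * u) =
        t * (t * u⁻¹ * (t ^ 2)⁻¹ * u⁻¹ * t ^ 3) := by
      simpa only [mul_assoc] using hxu
    exact mul_left_cancel this
  have h4 : t ^ 3 * u * (t ^ 3)⁻¹ * (u * t ^ 2 * u) = u * t ^ 2 * u * t := by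
    have : u * t ^ 2 * u * (u⁻¹ * (t ^ 2)⁻¹ * u⁻¹ * t ^ 3 * u) * (t ^ 3)⁻¹ * (u * t ^ 2 * u) =
        u * t ^ 2 * u * (t * u⁻¹ * (t ^ 2)⁻¹ * u⁻¹ * t ^ 3) * (t ^ 3)⁻¹ * (u * t ^ 2 * u) := by
      rw [h3]
    have e1 : u * t ^ 2 * u * (u⁻¹ * (t ^ 2)⁻¹ * u⁻¹ * t ^ 3 * u) * (t ^ 3)⁻¹ * (u * t ^ 2 * u) =
        t ^ 3 * u * (t ^ 3)⁻¹ * (u * t ^ 2 * u) := by group
    have e2 : u * t ^ 2 * u * (t * u⁻¹ * (t ^ 2)⁻¹ * u⁻¹ * t ^ 3) * (t ^ 3)⁻¹ * (u * t ^ 2 * u) =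
        u * t ^ 2 * u * t := by group
    rw [← e1, this, e2]
  rw [ht3] at h4
  -- w = t² u
  have hw : t ^ 3 * (t ^ 2 * u) ^ 3 = (t ^ 2 * u) ^ 2 * t := by
    have e1 : t ^ 3 * (t ^ 2 * u) ^ 3 = t ^ 5 * (u * t ^ 2 * u * t ^ 2 * u) := by
      simp only [pow_succ, pow_zero, one_mul, mul_assoc]
    have e2 : (t ^ 2 * u) ^ 2 * t = t ^ 2 * (u * t ^ 2 * u * t) := by
      simp only [pow_succ, pow_zero, one_mul, mul_assoc]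
    have e3 : t ^ 2 * (t ^ 3 * u * t ^ 2 * (u * t ^ 2 * u)) =
        t ^ 5 * (u * t ^ 2 * u * t ^ 2 * u) := by
      simp only [pow_succ, pow_zero, one_mul, mul_assoc]
    rw [e1, e2, ← h4, e3]
  have hsq := sq_eq t (t ^ 2 * u) h5 hw
  set w : G := t ^ 2 * u with hwdef
  have hw5 : w ^ 5 = 1 := by
    have hh : w ^ 6 * w ^ 3 = w ^ 2 * w ^ 2 := by
      have := hw
      rw [← hsq] at this
      rw [← pow_mul] at this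
      exact this
    rw [← pow_add, ← pow_add] at hh
    have : w ^ 4 * w ^ 5 = w ^ 4 * 1 := by rw [← pow_add, mul_one]; exact hh
    exact mul_left_cancel this
  have huw : u = (t ^ 2)⁻¹ * w := by rw [hwdef]; group
  rw [hx, huw, ← hsq]
  have : w ^ 2 * (((w ^ 2) ^ 2)⁻¹ * w)⁻¹ * ((w ^ 2) ^ 2)⁻¹ * (((w ^ 2) ^ 2)⁻¹ * w)⁻¹ *
      (w ^ 2) ^ 3 = (w ^ 5) ^ 2 := by
    group
  rw [this, hw5, one_pow]

end Pool.Agent.Helper19.Wh
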